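import Pool.Agent.H87.EBK.Stmts4
import Pool.Agent.H89.EBK.DEG

/-!
Board `ebu`, row DEGR: a vertex of small degree other than a given one.
-/

set_option autoImplicit false

namespace Pool.EBK

/-- Row DEGR. -/
theorem degr (hS : SUB) : DEGR := by
  intro V _ G h hG hw
  obtain ⟨w, hw⟩ := hw
  by_cases h1 : ∃ y, G.Adj h y
  · obtain ⟨y, hy⟩ := h1
    by_cases h2 : ∃ t, t ≠ h ∧ t ≠ y
    · obtain ⟨t, ht1, ht2⟩ := h2
      obtain ⟨z, -, hz1, -, a, b, hab⟩ := DEG_key hG _ Set.univ (Nat.lt_succ_self _) h y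
        (Set.mem_univ _) (Set.mem_univ _) hy ⟨t, Set.mem_univ _, ht1, ht2⟩
      exact ⟨z, hz1, a, b, fun u hu => hab u (Set.mem_univ _) hu⟩
    · push Not at h2
      refine ⟨y, hy.ne', h, h, fun u hu => ?_⟩
      left
      by_contra h3
      exact hu.ne (h2 u h3).symm
  · push Not at h1
    have : Nonempty {u : V | u ≠ h} := ⟨⟨w, hw⟩⟩
    obtain ⟨z, x, y, hxy⟩ := DEG_main (G.induce {u : V | u ≠ h}) (fun hc => hG (hS V G h hc))
    refine ⟨z.1, z.2, x.1, y.1, fun u hu => ?_⟩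
    have huh : u ≠ h := by
      rintro rfl
      exact h1 z.1 hu.symm
    rcases hxy ⟨u, huh⟩ hu with h3 | h3
    · left
      rw [← h3]
    · right
      rw [← h3]

end Pool.EBK
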